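import Pool.Agent.helper76.UF.SpecB

/-! # Row uf:RL2 (MP_37e5fa_nt) -/

set_option autoImplicit false

namespace Pool.Agent.UF

open Finset Polynomial NumberField nonZeroDivisors

theorem RL2 : RL2_stmt := by
  intro R _ _ _ s A J n k hA hJ hprod t ht
  have hAJ : ∀ u ∈ s, ∀ v ∈ s, u ≠ v → ∀ l : ℕ, IsCoprime (A u) ((J v) ^ l) := by
    intro u hu v hv huv l
    exact IsCoprime.of_isCoprime_of_dvd_left ((hJ u hu v hv huv).pow) (hA u hu)
  have h1 : A t ∣ (J t) ^ (k t) := by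
    have h2 : A t ∣ ∏ u ∈ s, (J u) ^ (k u) := by
      rw [← hprod]
      exact dvd_prod_of_mem A ht
    rw [← mul_prod_erase s (fun u => (J u) ^ (k u)) ht] at h2
    refine IsCoprime.dvd_of_dvd_mul_right ?_ h2
    refine IsCoprime.prod_right fun u hu => ?_
    rw [mem_erase] at hu
    exact hAJ t ht u hu.2 (Ne.symm hu.1) (k u)
  have h3 : (J t) ^ (k t) ∣ A t := by
    have h2 : (J t) ^ (k t) ∣ ∏ u ∈ s, A u := by
      rw [hprod]
      exact dvd_prod_of_mem (fun u => (J u) ^ (k u)) ht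
    rw [← mul_prod_erase s A ht] at h2
    refine IsCoprime.dvd_of_dvd_mul_right ?_ h2
    refine IsCoprime.prod_right fun u hu => ?_
    rw [mem_erase] at hu
    exact (hAJ u hu.2 t ht hu.1 (k t)).symm
  rw [Ideal.dvd_iff_le] at h1 h3
  exact le_antisymm h3 h1

end Pool.Agent.UF
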